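import Pool.Agent.U369.AR.Match
import Pool.Agent.U369.AR.FC
import Pool.Agent.K7.H20.AW.Fin

/-!
# The word problem for words in which every generator occurs at most three times

Definitions from `Pool/Agent/K7/H20/AW/Defs.lean`: `ArtinGroup`, `value`, `syllables`. A word is given
as the list of its syllables `s ^ k`.

Let `M` be an arbitrary Coxeter matrix and `w` a word in which every generator has at most three
syllables, all with odd exponents; for instance, a word in which every generator occurs at most three
times (each occurrence is a syllable `s ^ (±1)`). The Coxeter matrices `N` which are `Thin` for `M` and
`w` arise when all the labels other than `2` are replaced by infinity, except for some labels `3` of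
disjoint pairs of generators. There are finitely many of them, given by the sets of disjoint pairs
`{s, t}` with the label `3` such that `s` and `t` have three syllables in `w` with `s`, `s⁻¹`, `t`, `t⁻¹`
among them. They are of FC type: a set of generators without labels infinity generates a direct product
of symmetric groups of degree two and three. The theorem says that `w = 1` in the Artin group of `M` if
and only if `w = 1` in the Artin group of some thin matrix `N`.

Since the word problem is solved for the Artin groups of FC type by the algorithm of Dehornoy and
Godelle (this is not used and not formalised here), this gives an explicit algorithm which decides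
`w = 1` for all the words as above in all Artin groups.

The starting results `DecoupledGenerators` and `FewSyllables` treat the words in which every generator
has at most two syllables, or three if it has no label `3` with a generator of the word; then
only the right-angled group is needed. In the hand-in `ThreeOddSyllables` only some of the generators
have few syllables, and the labels `3` remain, so that if this condition holds for all generators one
is left with Artin groups with the labels `2`, `3` and infinity, for which the word problem is open.
Here it is shown that a trivial word needs at most one label `3` of each generator.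

**Proof.** Let `s ^ a * g1 * s ^ c * g2 * s ^ d * g3 = 1` with odd `a`, `c`, `d`, where `g1`, `g2`,
`g3` are products of the other generators. By `Struct.lean` there is a generator `t` with label `3`
with `s` such that, up to generators which commute with `s`, the elements `g1`, `g2`, `g3` are
`t ^ (-d)`, `t ^ (-a)`, `t ^ (-c)`, up to elements which commute with `s` and `t` the relation is the one
of the braid group on three strands, and `1`, `-1` are among `a`, `c`, `d`. So the relation lifts
to the Artin group in which all the labels of `s` other than `2` are infinity, with the exception of the
label `3` of `t` (`StepEx.lean`). This is applied to one generator after the other (`Match.lean`).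
-/

set_option autoImplicit false

namespace Pool.Agent.Results.MP_a1ec0a_al.AtMostThreeOccurrences

open Pool.Agent.K7.H20.AW

/-- FC type: every set of generators without labels infinity (the entry `0`) generates a finite
subgroup of the Coxeter group. -/
def IsFCType {S : Type*} (M : CoxeterMatrix S) : Prop :=
  ∀ T : Set S, (∀ s ∈ T, ∀ t ∈ T, M s t ≠ 0) → Finite (Subgroup.closure (M.simple '' T))

/-- The matrix `N` arises from `M` when labels are replaced by infinity (the entry `0`); the labels `2`
are kept, all the other labels of `N` are `3` or infinity, every generator has at most one label `3`
in `N`, and a generator with a label `3` in `N` has exactly three syllables in the word `w`, the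
exponents `1` and `-1` among them. -/
structure Thin {S : Type*} [DecidableEq S] (M : CoxeterMatrix S) (w : List (S × ℤ))
    (N : CoxeterMatrix S) : Prop where
  sub : ∀ s t, N s t = M s t ∨ N s t = 0
  two : ∀ s t, M s t = 2 → N s t = 2
  label : ∀ s t, s ≠ t → N s t = 2 ∨ N s t = 3 ∨ N s t = 0
  disjoint : ∀ s t u, N s t = 3 → N s u = 3 → t = u
  three : ∀ s t, N s t = 3 → syllables s w = 3 ∧ (s, 1) ∈ w ∧ (s, -1) ∈ w

/-- **The word problem for words with at most three odd syllables of every generator.** -/
theorem result {S : Type*} [Fintype S] [DecidableEq S] (M : CoxeterMatrix S)
    (w : List (S × ℤ)) (hw : ∀ s, syllables s w ≤ 3 ∧ ∀ p ∈ w, p.1 = s → Odd p.2) :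
    (∀ N, Thin M w N → IsFCType N) ∧
    (value M w = 1 ↔ ∃ N, Thin M w N ∧ value N w = 1) := by
  constructor
  · intro N hN T hT
    refine Pool.Agent.U369.AR.fc N hN.label ?_ T hT
    intro s x y hx hy
    exact hN.disjoint s x y (by rw [N.symmetric]; exact hx) (by rw [N.symmetric]; exact hy)
  · constructor
    · intro h
      obtain ⟨N, hN⟩ := Pool.Agent.U369.AR.ex_good M w (fun s => ⟨(hw s).2, (hw s).1⟩)
        ((value_iff w).1 h) Finset.univ
      refine ⟨N, ⟨hN.cut, hN.two, fun s t hst => ?_, fun s t u ht hu => ?_, fun s t ht => ?_⟩,
        (value_iff (M := N) w).2 hN.triv⟩
      · have h1 := hN.lab t (Finset.mem_univ _) s hst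
        exact h1
      · exact hN.one s (Finset.mem_univ _) t u (by rw [N.symmetric]; exact ht)
          (by rw [N.symmetric]; exact hu)
      · exact hN.three s (Finset.mem_univ _) t (by rw [N.symmetric]; exact ht)
    · rintro ⟨N, hN, h⟩
      rw [value_iff] at h ⊢
      have hc : Pool.Agent.U369.AR.Cutm M N := hN.sub
      rw [← Pool.Agent.U369.AR.pj_val hc w, h, map_one]

end Pool.Agent.Results.MP_a1ec0a_al.AtMostThreeOccurrences
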