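import Pool.Agent.U47.AW.Sub

/-!
# The word problem for words with few syllables, in all Artin groups

Definitions: `Pool/Agent/K7/H20/AW/Defs.lean` (`ArtinGroup`, `value`, `syllables`, `insert`, `reduce`),
`Pool/Agent/K7/H20/AW/DefsDec.lean` (`decouple`; `decouple M ∅` is the Coxeter matrix in which all
labels other than `2` are replaced by infinity, the matrix of a right-angled Artin group).

A word is given as a list of syllables `s ^ k`. Let `M` be an arbitrary Coxeter matrix and `w` a word
with at most two syllables of every generator; a generator may even have three syllables if it has no
label `3` with a generator of the word. Then `w = 1` in the Artin group of `M` if and only if `w = 1`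
in the right-angled Artin group of `decouple M ∅`, and the explicit procedure `reduce` decides this: it
moves the syllables past syllables of generators that commute with them and merges them, and `w = 1`
if and only if nothing is left. The procedure is the same for all Artin groups. The exponents are
arbitrary; the starting result `DecoupledGenerators` needs odd exponents.
-/

set_option autoImplicit false

namespace Pool.Agent.Results.MP_a1ec0a_al.FewSyllables

open Pool.Agent.K7.H20.AW

theorem result {S : Type*} [Fintype S] [DecidableEq S] (M : CoxeterMatrix S) (w : List (S × ℤ))
    (hw : ∀ s, syllables s w ≤ 2 ∨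
      (syllables s w ≤ 3 ∧ ∀ t : S, (∃ p ∈ w, p.1 = t) → M t s ≠ 3)) :
    (value M w = 1 ↔ reduce M w = []) ∧ (value M w = 1 ↔ value (decouple M ∅) w = 1) := by
  have h1 : value M w = 1 ↔ val (ra M) w = 1 := by
    rw [value_iff]
    constructor
    · exact Pool.Agent.U47.AW.few_sub hw
    · intro h
      rw [← qo_val, h, map_one]
  refine ⟨h1.trans (reduce_iff w).symm, h1.trans ?_⟩
  rw [Pool.Agent.U47.AW.ra_eq, value_iff]

end Pool.Agent.Results.MP_a1ec0a_al.FewSyllables
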