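import Pool.Agent.U369.AR.Iter
import Pool.Agent.K7.H20.AW.Fin

/-!
# Generators with at most three odd syllables: only the labels two and three matter

Definitions from `Pool/Agent/K7/H20/AW/Defs.lean`: `ArtinGroup`, `value`, `syllables`. A word is given
as the list of its syllables `s ^ k`.

Let `M` be an arbitrary Coxeter matrix and `w` a word. Let `s` be a generator with at most three
syllables in `w`, which all have odd exponents (for instance: a generator which occurs at most three
times). There is no condition on the other generators. Then all the labels of `s` other than `2` can
be replaced by infinity: `w` represents the identity of the Artin group of `M` if and only if it does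
so for the new matrix. The only exception are labels `3` when `s` has exactly three syllables and two
of them are `s` and `s⁻¹`; these labels are kept. (They have to be kept: `s t s t⁻¹ s⁻¹ t⁻¹` is trivial
if the label is `3`.) All this is done for all such generators `s` at the same time; `relabel M w` is
the new matrix.

So if every generator outside a set `Y` occurs at most three times in `w`, then the labels larger
than three outside `Y` play no role, and the word problem for `w` is reduced to the Artin group in
which they are infinite. If this group is of FC type, it has a solution by Dehornoy and Godelle. For
the words in which all the generators are as above, only labels `2`, `3` and infinity remain.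

The starting result `DecoupledGenerators` treats generators with at most two odd syllables, and with
three odd syllables if they have no label `3` at all with a generator of the word.

**Proof.** If `s ^ a * g1 * s ^ c * g2 * s ^ d * g3 = 1` with `a`, `c`, `d` odd and `g1`, `g2`, `g3`
products of the other generators, then the action of the Artin group on the cosets of a parabolic
subgroup (the retraction of Godelle and Paris, from the starting library) shows that
`g3⁻¹ = α * t ^ c * β` where `t` has the label `3` with `s`, and `α`, `β` are products of generators
which commute with `s` (`Three.lean`). Applied to the three rotations of the relation, and then with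
the roles of `s` and `t` exchanged, this gives the structure of all the relations of this form
(`Struct.lean`): up to elements which commute with both `s` and `t`, it is a relation
`s ^ a * t ^ (-d) * s ^ c * t ^ (-a) * s ^ d * t ^ (-c) = 1` of the braid group on three strands, and a
computation with `2 × 2` matrices gives `a + c + d + a c d = 0`, so that `1` and `-1` are among `a`,
`c`, `d` (`Expo.lean`). All the factors can be lifted to the Artin group of the new matrix
(`Step.lean`, `Iter.lean`).
-/

set_option autoImplicit false

namespace Pool.Agent.Results.MP_a1ec0a_al.ThreeOddSyllables

open Pool.Agent.K7.H20.AW

/-- The label `m` of the generator `s` can be replaced by infinity (if it is not `2`): `s` has at most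
three syllables in the word `w`, all with odd exponents; and if `m = 3` and `s` has three syllables,
then `s ^ 1` and `s ^ (-1)` are not both among them. -/
def Loose {S : Type*} [DecidableEq S] (w : List (S × ℤ)) (s : S) (m : ℕ) : Prop :=
  (∀ p ∈ w, p.1 = s → Odd p.2) ∧ syllables s w ≤ 3 ∧
    ¬ (m = 3 ∧ syllables s w = 3 ∧ (s, 1) ∈ w ∧ (s, -1) ∈ w)

instance {S : Type*} [DecidableEq S] (w : List (S × ℤ)) (s : S) (m : ℕ) :
    Decidable (Loose w s m) := by
  unfold Loose
  infer_instance

/-- The Coxeter matrix in which all the labels `M s t ≠ 2` off the diagonal with `Loose w s (M s t)`
or `Loose w t (M s t)` are replaced by infinity (the entry `0`), and the other labels are kept. -/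
def relabel {S : Type*} [DecidableEq S] (M : CoxeterMatrix S) (w : List (S × ℤ)) :
    CoxeterMatrix S where
  M := Matrix.of fun s t =>
    if s = t then 1 else if M s t = 2 then 2
    else if Loose w s (M s t) ∨ Loose w t (M s t) then 0 else M s t
  isSymm := by
    ext i j
    simp only [Matrix.transpose_apply, Matrix.of_apply, M.symmetric i j, eq_comm (a := i),
      or_comm (a := Loose w i _)]
  diagonal i := by simp
  off_diagonal i j h := by
    simp only [Matrix.of_apply, if_neg h]
    split_ifs
    · norm_num
    · norm_num
    · exact M.off_diagonal i j h

/-- **Words in an arbitrary Artin group: the labels which do not matter.** -/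
theorem result {S : Type*} [Fintype S] [DecidableEq S] (M : CoxeterMatrix S)
    (w : List (S × ℤ)) : value M w = 1 ↔ value (relabel M w) w = 1 := by
  classical
  have h1 := Pool.Agent.U369.AR.rl_iff M w Finset.univ
  have h2 : ∀ i j, Pool.Agent.U369.AR.rl M w Finset.univ i j = relabel M w i j := by
    intro i j
    have e : ∀ (s : S) (m : ℕ), (s ∈ (Finset.univ : Finset S) ∧ Pool.Agent.U369.AR.Lo w s m) ↔
        Loose w s m := fun s m => ⟨fun h => h.2, fun h => ⟨Finset.mem_univ _, h⟩⟩
    rw [Pool.Agent.U369.AR.rl_apply]
    simp only [e]
    rfl
  rw [value_iff, value_iff (M := relabel M w), h1]
  exact Pool.Agent.U369.AR.val_congr h2 w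

end Pool.Agent.Results.MP_a1ec0a_al.ThreeOddSyllables
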